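import Mathlib

/-!
# Cliques of the graphs of `X^2 + bXY + Y^2` relative to a subspace

For a finite extension `L / K` of finite fields, a `K`-subspace `V` of `L` and `b ≠ 0` in `L`, let
`Γ(Q_b, V)` be the graph on `L` in which distinct `x, y` are adjacent iff `x^2 + bxy + y^2 ∈ V`.
We show that `ω(Q_b, V) / #V → 0` uniformly over all admissible `V` and all `b ≠ 0`, as
`#K → ∞` with `[L : K] = n` fixed.  In fact `ω ≤ #V / #K + 4`.

Key point: if `x₁ ≠ x₂` lie in a clique `C` then `b (x₁ - x₂)(y - y') ∈ V` for all other `y, y' ∈ C`.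
When `#C > #V / #K + 4` this forces the subspaces `(b(x₁-x₂))⁻¹ V` to be all equal to one
subspace `W`, and then `V` is a multiple of the multiplier field of `W`.
-/

namespace Pool.Agent.Results.MP_e8cc41_co.CliqueRatio

variable {K L : Type} [Field K] [Field L] [Algebra K L]

/-- The graph `Γ(Q_b, V)`: distinct `x, y` are adjacent iff `x^2 + bxy + y^2 ∈ V`. -/
def Gam (b : L) (V : Submodule K L) : SimpleGraph L where
  Adj x y := x ≠ y ∧ x ^ 2 + b * x * y + y ^ 2 ∈ V
  symm := ⟨fun x y h => ⟨h.1.symm, by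
    have : y ^ 2 + b * y * x + x ^ 2 = x ^ 2 + b * x * y + y ^ 2 := by ring
    rw [this]; exact h.2⟩⟩
  loopless := ⟨fun x h => h.1 rfl⟩

/-- Admissible subspaces: `V ≠ 0`, `#V < q^(n/2)`, and no multiple `α V` is a subfield of `L`. -/
def Admissible (V : Submodule K L) : Prop :=
  V ≠ ⊥ ∧ Nat.card V ^ 2 < Nat.card K ^ Module.finrank K L ∧
    ∀ (α : L) (F : Subfield L), (F : Set L) ≠ (fun v => α * v) '' (V : Set L)

/-- A proper subspace is smaller at least by the factor `#K`. -/
lemma card_lt [Finite L] {A B : Submodule K L} (h : A < B) :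
    Nat.card K * Nat.card A ≤ Nat.card B := by
  haveI : Module.Finite K L := Module.Finite.of_finite
  haveI : Finite K := Finite.of_injective (algebraMap K L) (algebraMap K L).injective
  have h1 : Module.finrank K A < Module.finrank K B := Submodule.finrank_lt_finrank_of_lt h
  rw [Module.natCard_eq_pow_finrank (K := K) (V := A), Module.natCard_eq_pow_finrank (K := K) (V := B),
    ← pow_succ']
  exact Nat.pow_le_pow_right (Nat.card_pos) h1

/-- The subspace `{w | c w ∈ V}`. -/
def W (V : Submodule K L) (c : L) : Submodule K L :=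
  V.comap (LinearMap.mulLeft K c)

lemma mem_W (V : Submodule K L) (c w : L) : w ∈ W V c ↔ c * w ∈ V := by
  simp [W]

lemma card_W [Finite L] (V : Submodule K L) {c : L} (hc : c ≠ 0) :
    Nat.card (W V c) = Nat.card V := by
  refine Nat.card_congr ⟨fun w => ⟨c * w.1, (mem_W V c w.1).1 w.2⟩,
    fun v => ⟨c⁻¹ * v.1, by rw [mem_W, mul_inv_cancel_left₀ hc]; exact v.2⟩, ?_, ?_⟩
  · intro w; ext; simp [inv_mul_cancel_left₀ hc]
  · intro v; ext; simp [mul_inv_cancel_left₀ hc]

/-- A set whose differences lie in a subspace has at most as many elements. -/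
lemma card_le_of_diff [Finite L] (U : Submodule K L) (T : Finset L)
    (h : ∀ y ∈ T, ∀ y' ∈ T, y - y' ∈ U) : T.card ≤ Nat.card U := by
  classical
  rcases T.eq_empty_or_nonempty with rfl | ⟨t, ht⟩
  · simp
  · have : T.card = Nat.card T := by simp
    rw [this]
    exact Nat.card_le_card_of_injective (fun y : T => (⟨y.1 - t, h y.1 y.2 t ht⟩ : U))
      (fun y y' e => by
        have := congrArg Subtype.val e
        simp only [sub_left_inj] at this
        exact Subtype.ext this)

/-- Two subspaces of the same size as `V` containing all differences of a large set agree. -/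
lemma eq_of_diff [Finite L] (V U U' : Submodule K L) (hU : Nat.card U = Nat.card V)
    (hU' : Nat.card U' = Nat.card V) (T : Finset L)
    (hT : Nat.card V < Nat.card K * T.card)
    (h : ∀ y ∈ T, ∀ y' ∈ T, y - y' ∈ U) (h' : ∀ y ∈ T, ∀ y' ∈ T, y - y' ∈ U') : U = U' := by
  have h1 : T.card ≤ Nat.card (U ⊓ U' : Submodule K L) :=
    card_le_of_diff _ T (fun y hy y' hy' => ⟨h y hy y' hy', h' y hy y' hy'⟩)
  have key : ∀ X : Submodule K L, Nat.card X = Nat.card V → U ⊓ U' ≤ X → U ⊓ U' = X := by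
    intro X hX hle
    by_contra hne
    have h2 := card_lt (lt_of_le_of_ne hle hne)
    rw [hX] at h2
    have h3 : Nat.card K * T.card ≤ Nat.card K * Nat.card (U ⊓ U' : Submodule K L) :=
      Nat.mul_le_mul_left _ h1
    omega
  rw [← key U hU inf_le_left]
  conv_rhs => rw [← key U' hU' inf_le_right]

/-- The multiplier field of a finite subspace. -/
def mulField [Finite L] (U : Submodule K L) : Subfield L where
  carrier := {f | ∀ w ∈ U, f * w ∈ U}
  mul_mem' := by
    intro f g hf hg w hw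
    rw [mul_assoc]; exact hf _ (hg _ hw)
  one_mem' := by intro w hw; simpa using hw
  add_mem' := by
    intro f g hf hg w hw
    rw [add_mul]; exact U.add_mem (hf _ hw) (hg _ hw)
  zero_mem' := by intro w hw; simp
  neg_mem' := by
    intro f hf w hw
    rw [neg_mul]; exact U.neg_mem (hf _ hw)
  inv_mem' := by
    intro f hf w hw
    by_cases h0 : f = 0
    · subst h0; simp
    · have hinj : Function.Injective (fun u : U => (⟨f * u.1, hf u.1 u.2⟩ : U)) := by
        intro u u' e
        have := congrArg Subtype.val e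
        exact Subtype.ext (mul_left_cancel₀ h0 this)
      obtain ⟨u, hu⟩ := (Finite.injective_iff_surjective.1 hinj) ⟨w, hw⟩
      have : f * u.1 = w := congrArg Subtype.val hu
      rw [← this, inv_mul_cancel_left₀ h0]
      exact u.2

lemma mem_mulField [Finite L] (U : Submodule K L) (f : L) :
    f ∈ mulField U ↔ ∀ w ∈ U, f * w ∈ U := Iff.rfl

/-- Main lemma: a large clique forces a multiple of `V` to be a subfield. -/
theorem key [Finite L] (V : Submodule K L) (b : L) (hb : b ≠ 0) (C : Finset L)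
    (hC : (Gam b V).IsClique (C : Set L)) (hcard : Nat.card V < Nat.card K * (C.card - 4))
    (h6 : 6 ≤ C.card) :
    ∃ (α : L) (F : Subfield L), (F : Set L) = (fun v => α * v) '' (V : Set L) := by
  classical
  have hQ : ∀ x ∈ C, ∀ y ∈ C, x ≠ y → x ^ 2 + b * x * y + y ^ 2 ∈ V := by
    intro x hx y hy hxy
    exact (hC hx hy hxy).2
  -- the basic relation
  have star : ∀ x₁ ∈ C, ∀ x₂ ∈ C, ∀ y ∈ C, ∀ y' ∈ C, y ≠ x₁ → y ≠ x₂ → y' ≠ x₁ → y' ≠ x₂ →
      b * (x₁ - x₂) * (y - y') ∈ V := by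
    intro x₁ h₁ x₂ h₂ y hy y' hy' a1 a2 a3 a4
    have e1 := hQ x₁ h₁ y hy (Ne.symm a1)
    have e2 := hQ x₂ h₂ y hy (Ne.symm a2)
    have e3 := hQ x₁ h₁ y' hy' (Ne.symm a3)
    have e4 := hQ x₂ h₂ y' hy' (Ne.symm a4)
    have := V.sub_mem (V.sub_mem e1 e2) (V.sub_mem e3 e4)
    have e : (x₁ ^ 2 + b * x₁ * y + y ^ 2 - (x₂ ^ 2 + b * x₂ * y + y ^ 2)) -
        (x₁ ^ 2 + b * x₁ * y' + y' ^ 2 - (x₂ ^ 2 + b * x₂ * y' + y' ^ 2)) =
        b * (x₁ - x₂) * (y - y') := by ring
    rwa [e] at this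
  -- all the subspaces agree
  have hne : ∀ x₁ x₂ : L, x₁ ≠ x₂ → b * (x₁ - x₂) ≠ 0 := fun x₁ x₂ h =>
    mul_ne_zero hb (sub_ne_zero.2 h)
  have agree : ∀ x₁ ∈ C, ∀ x₂ ∈ C, ∀ x₃ ∈ C, ∀ x₄ ∈ C, x₁ ≠ x₂ → x₃ ≠ x₄ →
      W V (b * (x₁ - x₂)) = W V (b * (x₃ - x₄)) := by
    intro x₁ h₁ x₂ h₂ x₃ h₃ x₄ h₄ h12 h34
    set T : Finset L := (((C.erase x₁).erase x₂).erase x₃).erase x₄ with hT
    have hTc : C.card - 4 ≤ T.card := by
      have e1 := Finset.pred_card_le_card_erase (a := x₁) (s := C)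
      have e2 := Finset.pred_card_le_card_erase (a := x₂) (s := C.erase x₁)
      have e3 := Finset.pred_card_le_card_erase (a := x₃) (s := (C.erase x₁).erase x₂)
      have e4 := Finset.pred_card_le_card_erase (a := x₄) (s := ((C.erase x₁).erase x₂).erase x₃)
      rw [← hT] at e4
      omega
    have hTm : ∀ y ∈ T, y ∈ C ∧ y ≠ x₁ ∧ y ≠ x₂ ∧ y ≠ x₃ ∧ y ≠ x₄ := by
      intro y hy
      simp only [hT, Finset.mem_erase] at hy
      tauto
    refine eq_of_diff V _ _ (card_W V (hne _ _ h12)) (card_W V (hne _ _ h34)) T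
      (lt_of_lt_of_le hcard (Nat.mul_le_mul_left _ hTc)) ?_ ?_
    · intro y hy y' hy'
      rw [mem_W]
      obtain ⟨a0, a1, a2, -, -⟩ := hTm y hy
      obtain ⟨c0, c1, c2, -, -⟩ := hTm y' hy'
      exact star x₁ h₁ x₂ h₂ y a0 y' c0 a1 a2 c1 c2
    · intro y hy y' hy'
      rw [mem_W]
      obtain ⟨a0, -, -, a1, a2⟩ := hTm y hy
      obtain ⟨c0, -, -, c1, c2⟩ := hTm y' hy'
      exact star x₃ h₃ x₄ h₄ y a0 y' c0 a1 a2 c1 c2
  -- fix a pair
  obtain ⟨p, hp, r, hr, hpr⟩ := Finset.one_lt_card.1 (by omega : 1 < C.card)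
  set d : L := p - r with hd
  have hd0 : d ≠ 0 := sub_ne_zero.2 hpr
  set U : Submodule K L := W V (b * d) with hU
  have hUc : Nat.card U = Nat.card V := card_W V (mul_ne_zero hb hd0)
  -- all differences lie in `U`
  have hdiff : ∀ x ∈ C, ∀ x' ∈ C, x - x' ∈ U := by
    intro x hx x' hx'
    have h2 : 1 < ((C.erase x).erase x').card := by
      have e1 := Finset.pred_card_le_card_erase (a := x) (s := C)
      have e2 := Finset.pred_card_le_card_erase (a := x') (s := C.erase x)
      omega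
    obtain ⟨u, hu, v, hv, huv⟩ := Finset.one_lt_card.1 h2
    simp only [Finset.mem_erase] at hu hv
    have e := agree p hp r hr u hu.2.2 v hv.2.2 hpr huv
    rw [hU, hd, e, mem_W]
    exact star u hu.2.2 v hv.2.2 x hx x' hx' (Ne.symm hu.2.1) (Ne.symm hv.2.1) (Ne.symm hu.1)
      (Ne.symm hv.1)
  -- quotients of differences are multipliers
  set F : Subfield L := mulField U with hF
  have hmulF : ∀ x ∈ C, ∀ x' ∈ C, (x - x') * d⁻¹ ∈ F := by
    intro x hx x' hx'
    rw [hF, mem_mulField]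
    intro w hw
    by_cases h : x = x'
    · subst h; simp
    · have e := agree x hx x' hx' p hp r hr h hpr
      have hw' : w ∈ W V (b * (x - x')) := by rw [e]; exact hw
      rw [mem_W] at hw'
      rw [hU, mem_W]
      have : b * d * ((x - x') * d⁻¹ * w) = b * (x - x') * w := by
        field_simp
      rw [this]; exact hw'
  have hdU : d ∈ U := hdiff p hp r hr
  -- the subspace `d F`
  have hKF : ∀ k : K, algebraMap K L k ∈ F := by
    intro k
    rw [hF, mem_mulField]
    intro w hw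
    rw [← Algebra.smul_def]; exact U.smul_mem k hw
  let D : Submodule K L :=
    { carrier := {w | d⁻¹ * w ∈ F}
      add_mem' := by
        intro x y hx hy
        simp only [Set.mem_setOf_eq] at hx hy ⊢
        rw [mul_add]; exact F.add_mem hx hy
      zero_mem' := by simp [F.zero_mem]
      smul_mem' := by
        intro k x hx
        simp only [Set.mem_setOf_eq] at hx ⊢
        rw [Algebra.smul_def, mul_left_comm]
        exact F.mul_mem (hKF k) hx }
  have hDU : D ≤ U := by
    intro w hw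
    have h1 : d⁻¹ * w ∈ F := hw
    have h2 := (mem_mulField U _).1 h1 d hdU
    have : d⁻¹ * w * d = w := by field_simp
    rwa [this] at h2
  have hDc : C.card ≤ Nat.card D := by
    refine card_le_of_diff D C ?_
    intro y hy y' hy'
    show d⁻¹ * (y - y') ∈ F
    rw [mul_comm]; exact hmulF y hy y' hy'
  have hDeq : D = U := by
    by_contra hne'
    have h2 := card_lt (lt_of_le_of_ne hDU hne')
    rw [hUc] at h2
    have h3 : Nat.card K * (C.card - 4) ≤ Nat.card K * Nat.card D :=
      Nat.mul_le_mul_left _ (le_trans (Nat.sub_le _ _) hDc)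
    omega
  refine ⟨(b * d * d)⁻¹, F, ?_⟩
  have hc0 : b * d * d ≠ 0 := mul_ne_zero (mul_ne_zero hb hd0) hd0
  ext f
  constructor
  · intro hf
    refine ⟨b * d * d * f, ?_, by simp only; rw [inv_mul_cancel_left₀ hc0]⟩
    have h1 : d * f ∈ D := by
      show d⁻¹ * (d * f) ∈ F
      rw [inv_mul_cancel_left₀ hd0]; exact hf
    rw [hDeq, hU, mem_W] at h1
    have : b * d * d * f = b * d * (d * f) := by ring
    rw [this]; exact h1
  · rintro ⟨v, hv, rfl⟩
    have h1 : (b * d)⁻¹ * v ∈ U := by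
      rw [hU, mem_W, mul_inv_cancel_left₀ (mul_ne_zero hb hd0)]; exact hv
    rw [← hDeq] at h1
    have h2 : d⁻¹ * ((b * d)⁻¹ * v) ∈ F := h1
    have : (b * d * d)⁻¹ * v = d⁻¹ * ((b * d)⁻¹ * v) := by
      field_simp
    simp only [SetLike.mem_coe]
    rw [this]; exact h2

/-- **Main result.** For every `n ≥ 2` and every `ε > 0`, if `q = #K` is odd and large enough,
`[L : K] = n`, `V` is an admissible `K`-subspace of `L` and `b ≠ 0`, then the clique number of
`Γ(Q_b, V)` is at most `ε #V`. -/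
theorem result (n : ℕ) (_hn : 2 ≤ n) (ε : ℝ) (hε : 0 < ε) :
    ∃ q₀ : ℕ, ∀ (K L : Type) [Field K] [Field L] [Algebra K L] [Finite L],
      q₀ ≤ Nat.card K → Odd (Nat.card K) → Module.finrank K L = n →
      ∀ (V : Submodule K L) (b : L), b ≠ 0 → Admissible V →
        ((Gam b V).cliqueNum : ℝ) ≤ ε * (Nat.card V : ℝ) := by
  obtain ⟨m, hm⟩ := exists_nat_gt (6 / ε)
  refine ⟨m + 1, ?_⟩
  intro K L _ _ _ _ hq _ _ V b hb hV
  haveI : Module.Finite K L := Module.Finite.of_finite
  haveI : Finite K := Finite.of_injective (algebraMap K L) (algebraMap K L).injective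
  obtain ⟨C, hC⟩ := (Gam b V).exists_isNClique_cliqueNum
  obtain ⟨hV0, -, hV2⟩ := hV
  -- `#K ≤ #V`
  have hbot : (⊥ : Submodule K L) < V := bot_lt_iff_ne_bot.2 hV0
  have hqV : Nat.card K ≤ Nat.card V := by
    have := card_lt hbot
    simpa using this
  have hmpos : (0 : ℝ) < Nat.card K := by
    have : 0 < Nat.card K := Nat.card_pos
    exact_mod_cast this
  have hqr : 6 / ε < (Nat.card K : ℝ) := by
    have : (m : ℝ) + 1 ≤ (Nat.card K : ℝ) := by exact_mod_cast hq
    linarith
  have hqr' : 6 < ε * (Nat.card K : ℝ) := by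
    rw [div_lt_iff₀ hε] at hqr
    linarith
  have hVr : (Nat.card K : ℝ) ≤ (Nat.card V : ℝ) := by exact_mod_cast hqV
  by_contra hcon
  push Not at hcon
  have hcc : ((Gam b V).cliqueNum : ℝ) = (C.card : ℝ) := by rw [hC.card_eq]
  rw [hcc] at hcon
  have hC6 : 6 ≤ C.card := by
    by_contra h
    push Not at h
    have h5 : (C.card : ℝ) < 6 := by exact_mod_cast h
    nlinarith
  obtain ⟨α, F, hF⟩ := key V b hb C hC.isClique (by
    have h4 : ((C.card - 4 : ℕ) : ℝ) = (C.card : ℝ) - 4 := by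
      push_cast [Nat.cast_sub (by omega : 4 ≤ C.card)]; ring
    have : (Nat.card V : ℝ) < (Nat.card K : ℝ) * ((C.card - 4 : ℕ) : ℝ) := by
      rw [h4]
      have h7 : ε * (Nat.card V : ℝ) * (Nat.card K : ℝ) < (C.card : ℝ) * (Nat.card K : ℝ) :=
        mul_lt_mul_of_pos_right hcon hmpos
      have h8 : 6 * (Nat.card V : ℝ) ≤ ε * (Nat.card K : ℝ) * (Nat.card V : ℝ) :=
        mul_le_mul_of_nonneg_right hqr'.le (by positivity)
      nlinarith
    exact_mod_cast this) hC6
  exact hV2 α F hF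

end Pool.Agent.Results.MP_e8cc41_co.CliqueRatio
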